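import Pool.Agent.Helper58.SF.StA

/-! # Project SF, module FLW: elementary facts on flows -/

set_option autoImplicit false

namespace Pool.Agent.Helper86.SF

open Set Topology Pool.Agent.Helper13.TR Pool.Agent.Helper58.SF

section

variable {P : Type} [TopologicalSpace P] {r : P → ℝ} {R : ℝ → P → P}

private theorem contR (h : Flow P r R) {t : ℝ} (ht : 0 < t) : Continuous (R t) :=
  h.Rc.comp_continuous (f := fun y : P => (t, y)) (by fun_prop) (fun _ => ht)

/-- joint continuity with positive levels -/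
private theorem contRR (h : Flow P r R) {Y : Type} [TopologicalSpace Y] {a : Y → ℝ} {b : Y → P}
    (ha : Continuous a) (hb : Continuous b) (hp : ∀ y, 0 < a y) :
    Continuous fun y => R (a y) (b y) :=
  h.Rc.comp_continuous (f := fun y : Y => (a y, b y)) (ha.prodMk hb) hp

private theorem up_line (h : Flow P r R) (s : ℝ) (y : P) (hs : 0 < s) :
    JoinedIn {z | ∃ σ : ℝ, s ≤ σ ∧ z = R σ y} y (R s y) := by
  have hy1 := h.lt y
  rcases le_or_gt s 1 with h1 | h1
  · have hc : ContinuousOn (fun u : ℝ => R ((1 - u) * 1 + u * s) y) unitInterval := by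
      refine h.Rc.comp (f := fun u : ℝ => ((1 - u) * 1 + u * s, y)) (by fun_prop) ?_
      intro u hu
      have hu0 : 0 ≤ u := hu.1
      have hu1 : u ≤ 1 := hu.2
      change 0 < (1 - u) * 1 + u * s
      nlinarith
    refine JoinedIn.ofLine hc ?_ ?_ ?_
    · have e : (1 - (0 : ℝ)) * 1 + 0 * s = 1 := by ring
      rw [e]
      exact h.Rid 1 y hy1.le
    · have e : (1 - (1 : ℝ)) * 1 + 1 * s = s := by ring
      rw [e]
    · rintro z ⟨u, hu, rfl⟩
      have hu0 : 0 ≤ u := hu.1
      have hu1 : u ≤ 1 := hu.2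
      refine ⟨_, ?_, rfl⟩
      nlinarith
  · have e : R s y = y := h.Rid s y (hy1.le.trans h1.le)
    rw [e]
    exact JoinedIn.refl ⟨s, le_refl s, e.symm⟩

private theorem mem_iff (h : Flow P r R) (x y : P) :
    y ∈ Ln r R x ↔ R (min (r x) (r y)) x = R (min (r x) (r y)) y := by
  constructor
  · rintro (⟨h1, h2⟩ | ⟨h1, h2⟩)
    · rw [min_eq_left h1, h2]
      exact h.Rid _ _ le_rfl
    · rw [min_eq_right h1, h2]
      exact (h.Rid _ _ le_rfl).symm
  · intro e
    rcases le_total (r x) (r y) with h1 | h1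
    · rw [min_eq_left h1, h.Rid _ x le_rfl] at e
      exact Or.inl ⟨h1, e.symm⟩
    · rw [min_eq_right h1, h.Rid _ y le_rfl] at e
      exact Or.inr ⟨h1, e⟩

private theorem ln_sub (h : Flow P r R) (x y : P) (hy : y ∈ Up r R x) : Ln r R y ⊆ Ln r R x := by
  obtain ⟨h1, h2⟩ := hy
  rintro z (⟨h3, h4⟩ | ⟨h3, h4⟩)
  · refine Or.inl ⟨h1.trans h3, ?_⟩
    have e := h.RR (r x) (r y) z (h.pos x) h1
    rw [← e, h4, h2]
  · rcases le_total (r x) (r z) with h5 | h5
    · refine Or.inl ⟨h5, ?_⟩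
      have e := h.RR (r x) (r z) y (h.pos x) h5
      rw [h4] at e
      rw [e, h2]
    · refine Or.inr ⟨h5, ?_⟩
      have e := h.RR (r z) (r x) y (h.pos z) h5
      rw [h2] at e
      rw [e, h4]

private theorem tube (C : Set (P × P)) (hC : IsClosed C) (x : P) (K : Set P) (hK : IsCompact K)
    (hd : ∀ y ∈ K, (x, y) ∉ C) : ∃ O : Set P, IsOpen O ∧ x ∈ O ∧ ∀ x' ∈ O, ∀ y ∈ K, (x', y) ∉ C := by
  obtain ⟨u, v, hu, _, hxu, hKv, huv⟩ := generalized_tube_lemma (isCompact_singleton (x := x)) hK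
    hC.isOpen_compl (by
      rintro ⟨a, b⟩ ⟨ha, hb⟩
      have ha' : a = x := ha
      rw [ha']
      exact hd b hb)
  exact ⟨u, hu, hxu rfl, fun x' hx' y hy => huv ⟨hx', hKv hy⟩⟩

end

theorem hFLW : StFLW := by
  intro P _ _ r R h
  have hcl : ∀ x : P, IsClosed (Up r R x) := fun x =>
    (isClosed_le continuous_const h.rc).inter
      (isClosed_eq (contR h (h.pos x)) continuous_const)
  have hcd : ∀ x : P, IsClosed (Dn r R x) := fun x =>
    (isClosed_le h.rc continuous_const).inter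
      (isClosed_eq (contRR h h.rc continuous_const h.pos) continuous_id)
  have hxu : ∀ x : P, x ∈ Up r R x := fun x => ⟨le_rfl, h.Rid _ _ le_rfl⟩
  have hxd : ∀ x : P, x ∈ Dn r R x := fun x => ⟨le_rfl, h.Rid _ _ le_rfl⟩
  refine ⟨fun t ht => contR h ht, ?_, ?_, ?_, ln_sub h, mem_iff h, ?_, ?_⟩
  · intro t A ht hA
    exact (isClosed_le continuous_const h.rc).inter (hA.preimage (contR h ht))
  · intro x
    refine ⟨hcl x, hcd x, (hcl x).union (hcd x), ?_, rfl, hxu x, hxd x⟩
    ext y
    constructor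
    · rintro ⟨⟨h1, h2⟩, h3, h4⟩
      have e : r y = r x := le_antisymm h3 h1
      rw [e, h.Rid _ x le_rfl] at h4
      exact h4.symm
    · rintro rfl
      exact ⟨hxu y, hxd y⟩
  · intro s y hs
    exact up_line h s y hs
  · intro x K hK
    constructor
    · intro hd
      obtain ⟨O, hO, hxO, hO2⟩ := tube {p : P × P | r p.1 ≤ r p.2 ∧ R (r p.1) p.2 = p.1}
        ((isClosed_le (h.rc.comp continuous_fst) (h.rc.comp continuous_snd)).inter
          (isClosed_eq (contRR h (h.rc.comp continuous_fst) continuous_snd (fun p => h.pos p.1))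
            continuous_fst)) x K hK
        (fun y hy hy' => Set.disjoint_left.1 hd hy' hy)
      exact ⟨O, hO, hxO, fun x' hx' => Set.disjoint_left.2 fun y hy hyK => hO2 x' hx' y hyK hy⟩
    · intro hd
      obtain ⟨O, hO, hxO, hO2⟩ := tube {p : P × P | r p.2 ≤ r p.1 ∧ R (r p.2) p.1 = p.2}
        ((isClosed_le (h.rc.comp continuous_snd) (h.rc.comp continuous_fst)).inter
          (isClosed_eq (contRR h (h.rc.comp continuous_snd) continuous_fst (fun p => h.pos p.2))
            continuous_snd)) x K hK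
        (fun y hy hy' => Set.disjoint_left.1 hd hy' hy)
      exact ⟨O, hO, hxO, fun x' hx' => Set.disjoint_left.2 fun y hy hyK => hO2 x' hx' y hyK hy⟩
  · intro s x hs hsx
    have e : r (R s x) = s := by rw [h.rR s x hs, min_eq_left hsx]
    refine ⟨⟨?_, ?_⟩, ⟨?_, ?_⟩, e⟩
    · rw [e]; exact hsx
    · rw [e]
    · rw [e]; exact hsx
    · rw [e]

end Pool.Agent.Helper86.SF
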