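import Pool.Agent.Helper58.SF.StN

/-! # Project SF, module KAP: homeomorphisms of chains of arcs -/

set_option autoImplicit false

namespace Pool.Agent.Helper86.SF

open Set Topology Pool.Agent.Helper13.TR Pool.Agent.Helper58.SF
open Pool.Agent.Helper13.TW (IsArc StARB)

private theorem cont_iUnion {S T : Type} [TopologicalSpace S] [TopologicalSpace T] (k : S → T)
    (β : ℕ → Set S) (n : ℕ) (hc : ∀ i < n, IsClosed (β i)) (hk : ∀ i < n, ContinuousOn k (β i)) :
    ContinuousOn k (⋃ i ∈ Finset.range n, β i) ∧ IsClosed (⋃ i ∈ Finset.range n, β i) := by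
  induction n with
  | zero => simp
  | succ m ih =>
    obtain ⟨h1, h2⟩ := ih (fun i hi => hc i (by omega)) (fun i hi => hk i (by omega))
    rw [Finset.range_add_one, Finset.set_biUnion_insert]
    exact ⟨(hk m (by omega)).union_of_isClosed h1 (hc m (by omega)) h2, (hc m (by omega)).union h2⟩

theorem hKAP (hARB : StARB) : StKAP := by
  intro S _ _ n y β y' β' hn harc hnb hdis
  obtain ⟨a1, -, -, -, a5, -⟩ := hARB
  have hex : ∀ i : ℕ, ∃ f : S → ℂ, i < n → ContinuousOn f (β i) ∧ InjOn f (β i) ∧ f '' β i = β' i ∧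
      f (y i) = y' i ∧ f (y (i + 1)) = y' (i + 1) := by
    intro i
    by_cases hi : i < n
    · obtain ⟨f, hf⟩ := a5 S ℂ (β i) (β' i) _ _ _ _ (harc i hi).1 (harc i hi).2
      exact ⟨f, fun _ => hf⟩
    · exact ⟨fun _ => 0, fun h => absurd h hi⟩
  choose f hf using hex
  have hy0 : ∀ i < n, y i ∈ β i := fun i hi => (a1 S (β i) _ _ (harc i hi).1).2.2.1
  have hy1 : ∀ i < n, y (i + 1) ∈ β i := fun i hi => (a1 S (β i) _ _ (harc i hi).1).2.2.2.1
  have hcl : ∀ i < n, IsClosed (β i) := fun i hi => (a1 S (β i) _ _ (harc i hi).1).2.1.isClosed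
  have hlt : ∀ i j : ℕ, i < j → j < n → ∀ x, x ∈ β i → x ∈ β j → f i x = f j x := by
    intro i j hij hj x hxi hxj
    by_cases h2 : i + 2 ≤ j
    · exact absurd hxj (disjoint_left.1 (hdis i j h2 hj).1 hxi)
    · obtain rfl : j = i + 1 := by omega
      have hx : x ∈ β i ∩ β (i + 1) := ⟨hxi, hxj⟩
      rw [(hnb i hj).1] at hx
      rw [mem_singleton_iff.1 hx, (hf i (by omega)).2.2.2.2, (hf (i + 1) hj).2.2.2.1]
  have hwd : ∀ i < n, ∀ j < n, ∀ x, x ∈ β i → x ∈ β j → f i x = f j x := by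
    intro i hi j hj x hxi hxj
    rcases lt_trichotomy i j with h | h | h
    · exact hlt i j h hj x hxi hxj
    · rw [h]
    · exact (hlt j i h hi x hxj hxi).symm
  classical
  let k : S → ℂ := fun x => if h : ∃ i, i < n ∧ x ∈ β i then f (Classical.choose h) x else 0
  have hk : ∀ i < n, ∀ x ∈ β i, k x = f i x := by
    intro i hi x hx
    have h : ∃ i, i < n ∧ x ∈ β i := ⟨i, hi, hx⟩
    have e : k x = f (Classical.choose h) x := dif_pos h
    rw [e]
    exact hwd _ (Classical.choose_spec h).1 i hi x (Classical.choose_spec h).2 hx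
  have himg : ∀ i < n, k '' β i = β' i := by
    intro i hi
    rw [image_congr (hk i hi), (hf i hi).2.2.1]
  have hlt2 : ∀ i j : ℕ, i ≤ j → j < n → ∀ a ∈ β i, ∀ b ∈ β j, k a = k b → a = b := by
    intro i j hij hj a ha b hb hab
    rcases hij.eq_or_lt with rfl | hlt'
    · rw [hk i hj a ha, hk i hj b hb] at hab
      exact (hf i hj).2.1 ha hb hab
    · have hi : i < n := by omega
      have ha' : k a ∈ β' i := by rw [← himg i hi]; exact mem_image_of_mem k ha
      have hb' : k a ∈ β' j := by rw [hab, ← himg j hj]; exact mem_image_of_mem k hb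
      by_cases h2 : i + 2 ≤ j
      · exact absurd hb' (disjoint_left.1 (hdis i j h2 hj).2 ha')
      · obtain rfl : j = i + 1 := by omega
        have hx : k a ∈ β' i ∩ β' (i + 1) := ⟨ha', hb'⟩
        rw [(hnb i hj).2] at hx
        have hv : k a = y' (i + 1) := hx
        have e1 : a = y (i + 1) := by
          apply (hf i hi).2.1 ha (hy1 i hi)
          rw [← hk i hi a ha, hv, (hf i hi).2.2.2.2]
        have e2 : b = y (i + 1) := by
          apply (hf (i + 1) hj).2.1 hb (hy0 (i + 1) hj)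
          rw [← hk (i + 1) hj b hb, ← hab, hv, (hf (i + 1) hj).2.2.2.1]
        rw [e1, e2]
  refine ⟨k, ?_, ?_, himg, ?_⟩
  · exact (cont_iUnion k β n hcl fun i hi => ((hf i hi).1.congr (hk i hi))).1
  · intro a ha b hb hab
    obtain ⟨i, hi, ha⟩ := mem_iUnion₂.1 ha
    obtain ⟨j, hj, hb⟩ := mem_iUnion₂.1 hb
    rw [Finset.mem_range] at hi hj
    rcases le_total i j with h | h
    · exact hlt2 i j h hj a ha b hb hab
    · exact (hlt2 j i h hi b hb a ha hab.symm).symm
  · intro i hi
    rcases hi.eq_or_lt with rfl | hlt'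
    · obtain ⟨m, rfl⟩ : ∃ m, i = m + 1 := ⟨i - 1, by omega⟩
      rw [hk m (by omega) _ (hy1 m (by omega)), (hf m (by omega)).2.2.2.2]
    · rw [hk i hlt' _ (hy0 i hlt'), (hf i hlt').2.2.2.1]

end Pool.Agent.Helper86.SF
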