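import Pool.Agent.Helper58.SF.StB

/-! # Project SF, module OMB: winding numbers of 1-cycles about lines -/

set_option autoImplicit false

namespace Pool.Agent.Helper86.SF

open Set Topology Pool.Agent.Helper13.TR Pool.Agent.Helper58.SF

section

variable {P : Type} [TopologicalSpace P]

/-- `e` has linking degree `n` with the line through `x`. -/
private def OM (r : P → ℝ) (R : ℝ → P → P) (dg : P → Ch P 3 → ℤ) (x : P) (e : Ch P 2) (n : ℤ) : Prop :=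
  ∃ τ, MVR (Up r R x) (Dn r R x) 2 τ e ∧ dg x τ = n

private theorem mvr_add {A₁ A₂ : Set P} {τ τ' : Ch P 3} {e e' : Ch P 2} (h : MVR A₁ A₂ 2 τ e)
    (h' : MVR A₁ A₂ 2 τ' e') : MVR A₁ A₂ 2 (τ + τ') (e + e') := by
  obtain ⟨b₁, b₂, h1, h2, h3⟩ := h
  obtain ⟨c₁, c₂, g1, g2, g3⟩ := h'
  refine ⟨b₁ + c₁, b₂ + c₂, ?_, ?_, ?_⟩
  · rw [← h1, ← g1]; abel
  · have : e + e' - bd 2 (b₁ + c₁) = (e - bd 2 b₁) + (e' - bd 2 c₁) := by
      rw [map_add]; abel
    rw [this]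
    exact Submodule.add_mem _ h2 g2
  · have : e + e' - bd 2 (b₂ + c₂) = (e - bd 2 b₂) + (e' - bd 2 c₂) := by
      rw [map_add]; abel
    rw [this]
    exact Submodule.add_mem _ h3 g3

private theorem mvr_neg {A₁ A₂ : Set P} {τ : Ch P 3} {e : Ch P 2} (h : MVR A₁ A₂ 2 τ e) :
    MVR A₁ A₂ 2 (-τ) (-e) := by
  obtain ⟨b₁, b₂, h1, h2, h3⟩ := h
  refine ⟨-b₁, -b₂, ?_, ?_, ?_⟩
  · rw [← h1]; abel
  · have : -e - bd 2 (-b₁) = -(e - bd 2 b₁) := by
      rw [map_neg]; abel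
    rw [this]
    exact Submodule.neg_mem _ h2
  · have : -e - bd 2 (-b₂) = -(e - bd 2 b₂) := by
      rw [map_neg]; abel
    rw [this]
    exact Submodule.neg_mem _ h3

end

theorem hOMB (hOMA : StOMA) (hMON : StMON) (hCON : StCON) (hDEG : StDEG) (hFLW : StFLW) : StOMB := by
  intro P _ r R dg hG
  have hS : SB P r R dg := hG.toSB
  haveI := hS.met
  haveI := hG.pc
  obtain ⟨mmono, -, -, -, -, -⟩ := hMON P
  obtain ⟨d1, d2, -, -, d5⟩ := hDEG P dg hS.ws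
  obtain ⟨fc, -, -, -, -, -, f7, -⟩ := hFLW P r R hS.box.toFlow
  have hfl := hS.box.toFlow
  -- existence, uniqueness
  have hex : ∀ (x : P) (e : Ch P 2), bd 1 e ∈ cin (Ln r R x)ᶜ 1 → ∃ n, OM r R dg x e n := by
    intro x e he
    obtain ⟨τ, -, hτ⟩ := (hOMA P r R dg hS x).2.1 e he
    exact ⟨_, τ, hτ, rfl⟩
  have huni : ∀ (x : P) (e : Ch P 2) (n m : ℤ), OM r R dg x e n → OM r R dg x e m → n = m := by
    rintro x e n m ⟨τ, h1, h2⟩ ⟨τ', h3, h4⟩
    rw [← h2, ← h4]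
    exact (hOMA P r R dg hS x).2.2.2 τ τ' e h1 h3
  have hadd : ∀ (x : P) (e e' : Ch P 2) (n m : ℤ), OM r R dg x e n → OM r R dg x e' m →
      OM r R dg x (e + e') (n + m) := by
    rintro x e e' n m ⟨τ, h1, h2⟩ ⟨τ', h3, h4⟩
    refine ⟨τ + τ', mvr_add h1 h3, ?_⟩
    rw [hS.ws.add x τ ((hOMA P r R dg hS x).2.2.1 τ e h1) τ' ((hOMA P r R dg hS x).2.2.1 τ' e' h3),
      h2, h4]
  have hsub : ∀ (x : P) (e e' : Ch P 2) (n m : ℤ), OM r R dg x e n → OM r R dg x e' m →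
      OM r R dg x (e - e') (n - m) := by
    rintro x e e' n m ⟨τ, h1, h2⟩ ⟨τ', h3, h4⟩
    refine ⟨τ + (-τ'), ?_, ?_⟩
    · rw [sub_eq_add_neg]
      exact mvr_add h1 (mvr_neg h3)
    · rw [← sub_eq_add_neg, (d1 x).2.1 τ ((hOMA P r R dg hS x).2.2.1 τ e h1) τ'
        ((hOMA P r R dg hS x).2.2.1 τ' e' h3), h2, h4]
  have hnul : ∀ (x : P) (e : Ch P 2), e ∈ Nul (Ln r R x) 2 → OM r R dg x e 0 := by
    intro x e he
    obtain ⟨ρ, hρ, b, ⟨β, rfl⟩, rfl⟩ := Submodule.mem_sup.1 he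
    refine ⟨0, ⟨β, β, sub_self β, ?_, ?_⟩, (d1 x).1⟩
    · rw [add_sub_cancel_right]
      exact mmono _ _ 2 (compl_subset_compl.2 subset_union_left) hρ
    · rw [add_sub_cancel_right]
      exact mmono _ _ 2 (compl_subset_compl.2 subset_union_right) hρ
  have hloc : ∀ (x : P) (e : Ch P 2) (n : ℤ), OM r R dg x e n →
      ∃ O : Set P, IsOpen O ∧ x ∈ O ∧ ∀ x' ∈ O, OM r R dg x' e n := by
    rintro x e n ⟨τ, hM, hn⟩
    obtain ⟨b₁, b₂, h1, h2, h3⟩ := hM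
    obtain ⟨K₁, hK₁, hc₁, hs₁⟩ := hCON.2 P 2 (e - bd 2 b₁)
    obtain ⟨K₂, hK₂, hc₂, hs₂⟩ := hCON.2 P 2 (e - bd 2 b₂)
    have k₁ : Disjoint (Up r R x) K₁ := disjoint_right.2 fun y hy => hs₁ _ h2 hy
    have k₂ : Disjoint (Dn r R x) K₂ := disjoint_right.2 fun y hy => hs₂ _ h3 hy
    obtain ⟨O₁, hO₁, hx₁, g₁⟩ := (f7 x K₁ hK₁).1 k₁
    obtain ⟨O₂, hO₂, hx₂, g₂⟩ := (f7 x K₂ hK₂).2 k₂
    obtain ⟨O₃, hO₃, hx₃, g₃⟩ := d5 hS.lpc x τ
      ((hOMA P r R dg hS x).2.2.1 τ e ⟨b₁, b₂, h1, h2, h3⟩)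
    refine ⟨O₁ ∩ O₂ ∩ O₃, (hO₁.inter hO₂).inter hO₃, ⟨⟨hx₁, hx₂⟩, hx₃⟩, ?_⟩
    rintro x' ⟨⟨y1, y2⟩, y3⟩
    refine ⟨τ, ⟨b₁, b₂, h1, ?_, ?_⟩, (g₃ x' y3).trans hn⟩
    · exact mmono _ _ 2 (fun y hy hy' => disjoint_left.1 (g₁ x' y1) hy' hy) hc₁
    · exact mmono _ _ 2 (fun y hy hy' => disjoint_left.1 (g₂ x' y2) hy' hy) hc₂
  -- closed chains
  have hcl : ∀ (e : Ch P 2), bd 1 e = 0 → ∀ x : P, OM r R dg x e 0 := by
    intro e he
    have hall : ∀ x : P, ∃ n, OM r R dg x e n := by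
      intro x
      refine hex x e ?_
      rw [he]
      exact Submodule.zero_mem _
    have hop : ∀ n : ℤ, IsOpen {x : P | OM r R dg x e n} := by
      intro n
      rw [isOpen_iff_forall_mem_open]
      intro x hx
      obtain ⟨O, hO, hxO, hO'⟩ := hloc x e n hx
      exact ⟨O, hO', hO, hxO⟩
    have hcc : IsClopen {x : P | OM r R dg x e 0} := by
      refine ⟨?_, hop 0⟩
      rw [← isOpen_compl_iff]
      have e1 : {x : P | OM r R dg x e 0}ᶜ = ⋃ n ∈ {n : ℤ | n ≠ 0}, {x : P | OM r R dg x e n} := by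
        ext x
        simp only [mem_compl_iff, mem_setOf_eq, mem_iUnion, exists_prop]
        constructor
        · intro h0
          obtain ⟨n, hn⟩ := hall x
          refine ⟨n, ?_, hn⟩
          rintro rfl
          exact h0 hn
        · rintro ⟨n, hn0, hn⟩ h0
          exact hn0 (huni x e n 0 hn h0)
      rw [e1]
      exact isOpen_biUnion fun n _ => hop n
    -- a point whose line misses the chain
    obtain ⟨K, hK, hc, -⟩ := hCON.2 P 2 e
    obtain ⟨t, ht0, ht1, htK⟩ : ∃ t : ℝ, 0 < t ∧ t < 1 ∧ ∀ y ∈ K, t < r y := by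
      rcases K.eq_empty_or_nonempty with hE | hN
      · exact ⟨1 / 2, by norm_num, by norm_num, fun y hy => by rw [hE] at hy; exact hy.elim⟩
      · obtain ⟨y0, hy0, hmin⟩ := hK.exists_isMinOn hN hfl.rc.continuousOn
        have hp := hfl.pos y0
        have hl := hfl.lt y0
        refine ⟨r y0 / 2, by linarith, by linarith, fun y hy => ?_⟩
        have := hmin hy
        have h2 : r y0 ≤ r y := this
        linarith
    have hKc : IsCompact (R t '' K) := hK.image (fc t ht0)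
    have hnc := hG.nc t ht0 ht1
    obtain ⟨x, hx, hxK⟩ : ∃ x : P, r x = t ∧ x ∉ R t '' K := by
      by_contra hcon
      push Not at hcon
      have : {y : P | r y = t} = R t '' K := by
        refine Subset.antisymm (fun y hy => hcon y hy) ?_
        rintro y ⟨z, hz, rfl⟩
        change r (R t z) = t
        rw [hfl.rR t z ht0, min_eq_left (htK z hz).le]
      rw [this] at hnc
      exact hnc hKc
    have hx0 : OM r R dg x e 0 := by
      refine hnul x e (Submodule.mem_sup_left (mmono _ _ 2 ?_ hc))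
      rintro y hy (⟨h1, h2⟩ | ⟨h1, h2⟩)
      · rw [hx] at h2
        exact hxK ⟨y, hy, h2⟩
      · have := htK y hy
        rw [hx] at h1
        linarith
    have huniv := hcc.eq_univ ⟨x, hx0⟩
    intro y
    have : y ∈ {x : P | OM r R dg x e 0} := by rw [huniv]; exact mem_univ y
    exact this
  -- the winding number
  have hwd : ∀ (x : P) (e : Ch P 2) (n : ℤ), OM r R dg x e n →
      Wd (Up r R) (Dn r R) dg (bd 1 e) x = n := by
    rintro x e n ⟨τ, hM, hn⟩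
    have h : ∃ τ : Ch P 3, ∃ e' : Ch P 2, bd 1 e' = bd 1 e ∧ MVR (Up r R x) (Dn r R x) 2 τ e' :=
      ⟨τ, e, rfl, hM⟩
    unfold Wd
    rw [dif_pos h]
    obtain ⟨e₀, he₀, hM₀⟩ := Classical.choose_spec h
    have h1 : OM r R dg x (e₀ - e) (dg x (Classical.choose h) - n) :=
      hsub x e₀ e _ n ⟨_, hM₀, rfl⟩ ⟨τ, hM, hn⟩
    have h2 : OM r R dg x (e₀ - e) 0 := hcl (e₀ - e) (by rw [map_sub, he₀, sub_self]) x
    have h3 := huni x _ _ _ h1 h2
    omega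
  refine ⟨?_, ?_, ?_, ?_, ?_⟩
  · intro e x _ τ hτ
    exact hwd x e _ ⟨τ, hτ, rfl⟩
  · intro e e' x he he'
    obtain ⟨n, hn⟩ := hex x e he
    obtain ⟨m, hm⟩ := hex x e' he'
    rw [hwd x e n hn, hwd x e' m hm, ← map_add, ← map_sub]
    exact ⟨hwd x _ _ (hadd x e e' n m hn hm), hwd x _ _ (hsub x e e' n m hn hm)⟩
  · intro e A hA x y hxy
    obtain ⟨γ, hγ⟩ := hxy
    have hlc : IsLocallyConstant fun u : unitInterval => Wd (Up r R) (Dn r R) dg (bd 1 e) (γ u) := by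
      rw [IsLocallyConstant.iff_exists_open]
      intro u
      obtain ⟨n, hn⟩ := hex (γ u) e (hA _ (hγ u))
      obtain ⟨O, hO, hxO, hO'⟩ := hloc (γ u) e n hn
      refine ⟨γ ⁻¹' O, hO.preimage γ.continuous, hxO, fun v hv => ?_⟩
      rw [hwd (γ v) e n (hO' _ hv), hwd (γ u) e n hn]
    have h := hlc.apply_eq_of_preconnectedSpace 0 1
    simpa only [γ.source, γ.target] using h
  · intro e x he
    exact hwd x e 0 (hnul x e (Submodule.mem_sup_left he))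
  · intro e e' x he he' hN
    obtain ⟨n, hn⟩ := hex x e he
    obtain ⟨m, hm⟩ := hex x e' he'
    have h1 := huni x _ _ _ (hsub x e e' n m hn hm) (hnul x _ hN)
    rw [hwd x e n hn, hwd x e' m hm]
    omega

end Pool.Agent.Helper86.SF
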